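import Mathlib
set_option autoImplicit false
namespace Pool.Agent.Results.MP_e17fb9_al.No

/-- map on words defined by an automaton over `Y` with states `Q`, whose output map at the state
`q` is left multiplication by `g q`, and with transition function `δ`. -/
def run {Y Q : Type} [Group Y] (g : Q → Y) (δ : Q → Y → Q) : Q → List Y → List Y
  | _, [] => []
  | q, j :: w => (g q * j) :: run g δ (δ q j) w

/-- the finite state wreath power `W_Y` -/
def W (Y : Type) [Group Y] : Set (Equiv.Perm (List Y)) :=
  {π | ∃ (Q : Type) (_ : Finite Q) (g : Q → Y) (δ : Q → Y → Q) (q : Q), ⇑π = run g δ q}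

/-- the group `G_Y` generated by the states of the automaton `A_Y` -/
def GY (Y : Type) [Group Y] : Subgroup (Equiv.Perm (List Y)) :=
  Subgroup.closure {π | ∃ i : Y, ⇑π = run (fun i : Y => i) (fun i j => j⁻¹ * i) i}

/-- finitely supported functions `ℤ → Y` -/
def Base (Y : Type) [Group Y] : Subgroup (ℤ → Y) where
  carrier := {f | (Function.mulSupport f).Finite}
  mul_mem' := fun {f g} hf hg => (hf.union hg).subset (Function.mulSupport_mul f g)
  one_mem' := by simp
  inv_mem' := fun {f} hf => by simpa using hf

/-- the shift `f ↦ (k ↦ f (k - n))` -/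
def sh (Y : Type) [Group Y] (n : ℤ) (f : Base Y) : Base Y :=
  ⟨fun k => f.1 (k - n), Set.Finite.preimage (f := fun k => k - n) (sub_left_injective.injOn) f.2⟩

/-- the shift action of `ℤ` on the base group -/
def shift (Y : Type) [Group Y] : Multiplicative ℤ →* MulAut (Base Y) where
  toFun n :=
    { toFun := sh Y n.toAdd
      invFun := sh Y (-n.toAdd)
      left_inv := fun f => by ext k; simp [sh]
      right_inv := fun f => by ext k; simp [sh]
      map_mul' := fun f g => rfl }
  map_one' := by ext f k; simp [sh]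
  map_mul' := fun m n => by ext f k; simp [sh, sub_sub]

/-- the lamplighter group `Y ≀ ℤ` -/
abbrev Lamp (Y : Type) [Group Y] := Base Y ⋊[shift Y] Multiplicative ℤ

section
variable {Y : Type} [Group Y]

theorem run_len {Q : Type} (g : Q → Y) (δ : Q → Y → Q) (w : List Y) :
    ∀ q, (run g δ q w).length = w.length := by
  induction w with
  | nil => intro q; rfl
  | cons j w ih => intro q; simp [run, ih]

theorem run_bij {Q : Type} (g : Q → Y) (δ : Q → Y → Q) (q : Q) :
    Function.Bijective (run g δ q) := by
  constructor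
  · intro w
    induction w generalizing q with
    | nil => intro v h; cases v with
      | nil => rfl
      | cons _ _ => simp [run] at h
    | cons j w ih => intro v h; cases v with
      | nil => simp [run] at h
      | cons k v =>
        simp only [run, List.cons.injEq, mul_right_inj] at h
        obtain ⟨rfl, h⟩ := h
        rw [ih _ h]
  · intro w
    induction w generalizing q with
    | nil => exact ⟨[], rfl⟩
    | cons j w ih =>
      obtain ⟨v, hv⟩ := ih (δ q ((g q)⁻¹ * j))
      exact ⟨((g q)⁻¹ * j) :: v, by simp [run, hv]⟩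

def LP (Y : Type) : Subgroup (Equiv.Perm (List Y)) where
  carrier := {π | ∀ w, (π w).length = w.length}
  mul_mem' := fun {a b} ha hb w => by rw [Equiv.Perm.mul_apply, ha, hb]
  one_mem' := fun w => rfl
  inv_mem' := fun {a} ha w => by
    have := ha (a⁻¹ w)
    simpa using this.symm

def dl (a : Y) (n : ℤ) : Base Y :=
  ⟨Pi.mulSingle n a, (Set.finite_singleton n).subset (Pi.mulSupport_mulSingle_subset)⟩

theorem main [Finite Y] (a b : Y) (hab : a * b ≠ b * a) (φ : Lamp Y →* Equiv.Perm (List Y))
    (hφ : ∀ x, φ x ∈ LP Y) : ¬ Function.Injective φ := by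
  intro hi
  let A : Lamp Y := SemidirectProduct.inl (dl a 0)
  let B : Lamp Y := SemidirectProduct.inl (dl b 0)
  let t : Lamp Y := SemidirectProduct.inr (Multiplicative.ofAdd 1)
  have hAB : A * B ≠ B * A := by
    intro h
    simp only [A, B, ← map_mul] at h
    have := congrFun (congrArg Subtype.val (SemidirectProduct.inl_injective h)) 0
    simp [dl] at this
    exact hab this
  apply hAB
  apply hi
  ext1 w
  let S := {v : List Y // v.length = w.length}
  haveI : Finite S := (List.finite_length_eq Y w.length).to_subtype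
  let ψ : Lamp Y →* Equiv.Perm S :=
    { toFun := fun x => (φ x).subtypePerm (fun v => by rw [hφ x v])
      map_one' := by ext v; simp
      map_mul' := fun x y => by ext v; simp }
  suffices h : ψ (A * B) = ψ (B * A) from
    congrArg Subtype.val (Equiv.congr_fun h ⟨w, rfl⟩)
  obtain ⟨N, hN, hp⟩ := isOfFinOrder_iff_pow_eq_one.1 (isOfFinOrder_of_finite (ψ t))
  have e : t ^ N * A * (t ^ N)⁻¹ = SemidirectProduct.inl (dl a N) := by
    simp only [t, A, ← map_pow, ← map_inv]
    rw [← SemidirectProduct.inl_aut]
    congr 1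
    ext k
    simp [shift, sh, dl, Pi.mulSingle_apply, sub_eq_zero]
  have e2 : ψ A = ψ (SemidirectProduct.inl (dl a N)) := by
    rw [← e]; simp [hp]
  rw [map_mul, map_mul, e2, ← map_mul, ← map_mul]
  simp only [B, ← map_mul]
  refine congrArg (fun x => ψ (SemidirectProduct.inl x)) ?_
  ext k
  have : (N : ℤ) ≠ 0 := by omega
  by_cases hk : k = 0
  · subst hk; simp [dl, Pi.mulSingle_apply, this.symm]
  · simp [dl, Pi.mulSingle_apply, hk]
end

theorem result (Y : Type) [Group Y] [Finite Y] (hY : ∃ a b : Y, a * b ≠ b * a) :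
    (∀ i : Y, Function.Bijective (run (fun i : Y => i) (fun i j => j⁻¹ * i) i)) ∧
    IsEmpty (GY Y ≃* Lamp Y) ∧
    ¬ ∃ H : Subgroup (Equiv.Perm (List Y)), (H : Set (Equiv.Perm (List Y))) ⊆ W Y ∧
      Nonempty (H ≃* Lamp Y) := by
  obtain ⟨a, b, hab⟩ := hY
  have key : ∀ H : Subgroup (Equiv.Perm (List Y)), H ≤ LP Y → IsEmpty (H ≃* Lamp Y) := by
    intro H hH
    refine ⟨fun e => main a b hab (H.subtype.comp e.symm.toMonoidHom) (fun x => hH (e.symm x).2) ?_⟩
    exact H.subtype_injective.comp e.symm.injective
  refine ⟨fun i => run_bij _ _ _, key _ ?_, ?_⟩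
  · refine (Subgroup.closure_le _).2 ?_
    rintro π ⟨i, hi⟩ w
    rw [hi, run_len]
  · rintro ⟨H, hH, ⟨e⟩⟩
    refine (key H fun π hπ w => ?_).false e
    obtain ⟨Q, -, g, δ, q, h⟩ := hH hπ
    rw [h, run_len]

end Pool.Agent.Results.MP_e17fb9_al.No
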